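import Pool.Agent.Helper35.EAM.BASV
import Pool.Agent.Helper35.EAM.CPTV
import Pool.Agent.Helper35.EAM.DIMV
import Pool.Agent.Helper35.EAM.FINALV
import Pool.Agent.Helper35.EAM.MAIN3V
import Pool.Agent.Helper35.EAM.MAINV
import Pool.Agent.Helper35.EAM.NETG
import Pool.Agent.Helper35.EAM.NETU
import Pool.Agent.Helper35.EAM.UNIV
import Pool.Agent.H62.EAM.CONN
import Pool.Agent.Helper27.EAM.GKSP
import Pool.Agent.Helper27.EAM.GKSU
import Pool.Agent.Helper36.EAM.Paths
import Pool.Agent.Helper4.EAM.ADJ
import Pool.Agent.Helper4.EAM.REP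
import Pool.Agent.Helper44.EAM.FLIP
import Pool.Agent.Helper44.EAM.LISTB
import Pool.Agent.Helper44.EAM.NUM
import Pool.Agent.Helper44.EAM.PJ
import Pool.Agent.Helper44.EAM.PU
import Pool.Agent.Helper52.EAM.GEOM
import Pool.Agent.Helper52.EAM.PROB
import Pool.Agent.Helper56.EAM.HU
import Pool.Agent.Helper59.EAM.GAUGE
import Pool.Agent.Helper59.EAM.PARITY
import Pool.Agent.Helper6.EAM.EXPA
import Pool.Agent.Helper6.EAM.HAM
import Pool.Agent.Helper6.EAM.REN
import Pool.Agent.Helper61.EAM.ZO
import Pool.Agent.Helper74.EAM.FIELD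
import Pool.Agent.Helper74.EAM.FIELD2
import Pool.Agent.Helper85.EAM.NETJ
import Pool.Agent.Helper91.EAM.PEI
import Pool.Agent.Helper97.EAM.WALK

/-!
# Edwards–Anderson spin glass with frozen spins: a phase transition at `β` of order `1/√d`, all `d ≥ 3`

The model is the one of the question (`Site`, `dist1` (graph distance), `Coupling`, `couplingLaw`,
`gE` (finite-volume expectation), `IsGibbs` in `Pool.H47EA`; `ind x` is the indicator of
`σ_x = 1`).

`IsGibbsOn β J S ζ π`: `π` is a Gibbs state of the model on the set `S` of sites, the spins off `S` being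
frozen at `ζ` (the frozen spins act on their neighbours in `S` through the couplings). For
`S` = all sites these are the Gibbs states of the question (clause 0).

For `β ≤ c / √d` the Gibbs state is unique whatever is frozen (clause 1). But one can freeze spins in
three consecutive hyperplanes such that there is more than one Gibbs state for all
`β ≥ bd d` at once (clause 2); `bd d` is `21 / √d` for `d ≥ 65` (and `21` for `d < 65`). The greatest
influence of far away boundary conditions, over all finite volumes, does not vanish for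
`β ≥ bd d` (clause 3).

By helper35 with helpers 4, 6, 27, 36, 44, 52, 56, 57, 59, 61, 62, 70, 74, 85, 91, 97.
-/

set_option autoImplicit false

open MeasureTheory

namespace Pool.Agent.Results.MP_81d17b_pr.FrozenPhaseTransition

open Pool.H47EA (Site dist1 Coupling couplingLaw gE ind IsGibbs)

/-- Gibbs states of the model on the set `S` of sites, the spins off `S` being frozen at `ζ`:
probability measures on the configurations which are equal to `ζ` off `S` almost surely and satisfy
the DLR equations for all finite sets `L ⊆ S`. -/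
def IsGibbsOn {d : ℕ} (β : ℝ) (J : Coupling d) (S : Set (Site d)) (ζ : Site d → Bool)
    (π : Measure (Site d → Bool)) : Prop :=
  IsProbabilityMeasure π ∧ (∀ᵐ σ ∂π, ∀ y, y ∉ S → σ y = ζ y) ∧
    ∀ L : Finset (Site d), (∀ x ∈ L, x ∈ S) → ∀ A : Set (Site d → Bool), MeasurableSet A →
      (π A).toReal = ∫ ω, gE β J L ω (A.indicator fun _ => (1 : ℝ)) ∂π

/-- The greatest influence on the spin at `x` of a change of the boundary condition at distance at least
`n` from `x`, over all finite sets `L ∋ x`. -/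
noncomputable def influence {d : ℕ} (β : ℝ) (J : Coupling d) (n : ℕ) (x : Site d) : ℝ :=
  sSup {t | ∃ (L : Finset (Site d)) (ω ω' : Site d → Bool), x ∈ L ∧
    (∀ y, y ∉ L → dist1 x y < n → ω y = ω' y) ∧ t = |gE β J L ω (ind x) - gE β J L ω' (ind x)|}

/-- `21` in dimension `d < 65` and `21 / √d` in dimension `d ≥ 65` (at most `168 / √d` in all
dimensions) -/
noncomputable def bd (d : ℕ) : ℝ := if d < 65 then 21 else 21 / √(d : ℝ)

/-- 0. Without frozen spins (`S` = all sites) the Gibbs states are those of the question.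

There is an absolute constant `c > 0` such that for every `d ≥ 3`:

1. almost surely, for all `β ∈ (0, c / √d]`, all sets `S` of sites and all configurations `ζ` of the
frozen spins simultaneously, there is exactly one Gibbs state on `S` given `ζ`;

2. almost surely there are `h ∈ ℤ`, a set `S` of sites which contains all sites `y` with
`|y_i - h| ≥ 2` (`i` is a fixed coordinate), and frozen spins `ζ` off `S`, such that for all
`β ≥ bd d` simultaneously there is more than one Gibbs state on `S` given `ζ`;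

3. for `β ≥ bd d` and every `n ≥ 1` the mean over the couplings of the greatest influence on the
spin at the origin of the boundary condition at distance at least `n` is at least `1/2`. -/
theorem result :
    (∀ (d : ℕ) (β : ℝ) (J : Coupling d) (ζ : Site d → Bool) (π : Measure (Site d → Bool)),
      IsGibbsOn β J Set.univ ζ π ↔ IsGibbs β J π) ∧
    ∃ c : ℝ, 0 < c ∧ ∀ d : ℕ, 3 ≤ d →
      (∀ᵐ J ∂(couplingLaw d), ∀ β : ℝ, 0 < β → β ≤ c / √(d : ℝ) →
        ∀ (S : Set (Site d)) (ζ : Site d → Bool), ∃! π : Measure (Site d → Bool),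
          IsGibbsOn β J S ζ π) ∧
      (∃ i : Fin d, ∀ᵐ J ∂(couplingLaw d), ∃ (h : ℤ) (S : Set (Site d)) (ζ : Site d → Bool),
        (∀ y : Site d, y ∉ S → |y i - h| ≤ 1) ∧ ∀ β : ℝ, bd d ≤ β →
          ∃ π π' : Measure (Site d → Bool), IsGibbsOn β J S ζ π ∧ IsGibbsOn β J S ζ π' ∧
            π ≠ π') ∧
      (∀ (β : ℝ) (n : ℕ), bd d ≤ β → 1 ≤ n →
        1 / 2 ≤ ∫ J, influence β J n (0 : Site d) ∂(couplingLaw d)) := by
  have hA := Pool.Agent.Helper4.EAM.t_ADJ
  have hR := Pool.Agent.Helper4.EAM.t_REP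
  have hB := Pool.Agent.Helper35.EAM4.t_BASV
  have hM3 := Pool.Agent.Helper35.EAM4.t_MAIN3V hB Helper74.EAM2.t_FIELD2
    (Pool.Agent.Helper35.EAM2.t_NETG Pool.Agent.Helper27.EAM.t_GKSP)
    Pool.Agent.Helper27.EAM.t_PERCM
    Pool.Agent.Helper91.EAM.t_PEI (Pool.Agent.Helper59.EAM.t_PARITY hR hA)
    (Pool.Agent.Helper59.EAM.t_GAUGE hR hA) Pool.Agent.H62.EAM.t_CONN
    (Pool.Agent.Helper44.EAM.LISTB.listb_thm
      (Pool.Agent.Helper44.EAM.PJ.pj_thm Pool.Agent.Helper44.EAM.flip_thm)
      Pool.Agent.Helper44.EAM.pu_thm)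
    Pool.Agent.Helper91.EAM.t_MEAS Pool.Agent.Helper44.EAM.num_thm
  have hMV : Pool.Agent.Helper35.EAM4.S_MAINV := by
    open Pool.Agent.Helper35.EAM Pool.Agent.Helper35.EAM4 Pool.Agent.Helper36.EAM
      Pool.Agent.Helper52.EAM Pool.Agent.Helper6.EAM Helper74.EAM Helper85.EAM
      Pool.Agent.Helper97.EAM in
    exact t_MAINV hB (t_NETU t_HAM Pool.Agent.Helper27.EAM.t_GKSU) (t_NETJ t_GEOM t_FIELD)
      t_PATH (t_SEC t_UNI t_EXPA t_REN t_WALK) t_PROB t_GEOM
  exact ⟨Pool.Agent.Helper35.EAM3.t_UNIV, Pool.Agent.Helper35.EAM4.finalV hB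
    Pool.Agent.Helper35.EAM4.t_DIMV hM3 hMV Pool.Agent.Helper61.EAM.t_ZO Pool.Agent.Helper35.EAM4.t_CPTV
    Pool.Agent.Helper56.EAM.t_HU⟩

end Pool.Agent.Results.MP_81d17b_pr.FrozenPhaseTransition
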